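import Mathlib

namespace Pool.Agent.Results.MP_abbe90_al.Example

open TensorProduct Coalgebra

/-- Rack bialgebra: `op x y = x ◁ y`; `map₂ op op (Δ x) (Δ y) = x₁ ◁ y₁ ⊗ x₂ ◁ y₂`. -/
structure IsRackBialgebra (k : Type*) {C : Type*} [Field k] [AddCommGroup C] [Module k C]
    [Coalgebra k C] (one : C) (op : C →ₗ[k] C →ₗ[k] C) : Prop where
  comul_one : comul (R := k) one = one ⊗ₜ one
  counit_one : counit (R := k) one = 1
  comul_op : ∀ x y, comul (R := k) (op x y) = TensorProduct.map₂ op op (comul x) (comul y)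
  counit_op : ∀ x y, counit (R := k) (op x y) = counit (R := k) x * counit (R := k) y
  self_distrib : ∀ x y z,
    op (op x y) z = TensorProduct.lift op (TensorProduct.map (op x) (op y) (comul z))
  op_one : ∀ x, op x one = x
  one_op : ∀ x, op one x = counit (R := k) x • one

/-- Yetter-Drinfel'd rack structure over the bialgebra `H`: `act x h = x · h` and `q : C → H`. -/
structure IsYDRack (k : Type*) {C H : Type*} [Field k] [AddCommGroup C] [Module k C]
    [Coalgebra k C] [Ring H] [Bialgebra k H] (one : C) (op : C →ₗ[k] C →ₗ[k] C)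
    (act : C →ₗ[k] H →ₗ[k] C) (q : C →ₗ[k] H) : Prop where
  act_one : ∀ x, act x 1 = x
  act_mul : ∀ x g h, act x (g * h) = act (act x g) h
  comul_act : ∀ x h, comul (R := k) (act x h) = TensorProduct.map₂ act act (comul x) (comul h)
  counit_act : ∀ x h, counit (R := k) (act x h) = counit (R := k) x * counit (R := k) h
  comul_q : ∀ x, comul (R := k) (q x) = TensorProduct.map q q (comul x)
  counit_q : ∀ x, counit (R := k) (q x) = counit (R := k) x
  q_one : q one = 1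
  op_eq : ∀ a b, op a b = act a (q b)
  yd : ∀ a h, LinearMap.mul' k H (TensorProduct.map LinearMap.id (q ∘ₗ act a) (comul h)) = q a * h

/-- coordinates: `0 ↦ 1`, `1 ↦ a`, `2 ↦ y`, `3 ↦ z`, `4 ↦ d`, `5 ↦ b` -/
abbrev V := Fin 6 → ℚ

def e (i : Fin 6) : V := Pi.single i 1

noncomputable def D : V →ₗ[ℚ] V ⊗[ℚ] V :=
  (TensorProduct.mk ℚ V V).flip (e 0) + TensorProduct.mk ℚ V V (e 0)
    - (LinearMap.proj 0 : V →ₗ[ℚ] ℚ).smulRight (e 0 ⊗ₜ e 0)
    + (LinearMap.proj 5 : V →ₗ[ℚ] ℚ).smulRight (e 2 ⊗ₜ e 3)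

lemma D_apply (x : V) :
    D x = x ⊗ₜ e 0 + e 0 ⊗ₜ x - x 0 • (e 0 ⊗ₜ e 0) + x 5 • (e 2 ⊗ₜ e 3) := rfl

def E : V →ₗ[ℚ] ℚ := LinearMap.proj 0

lemma E_apply (x : V) : E x = x 0 := rfl

lemma D0 : D (e 0) = e 0 ⊗ₜ e 0 := by simp [D_apply, e]
lemma D1 : D (e 1) = e 1 ⊗ₜ e 0 + e 0 ⊗ₜ e 1 := by simp [D_apply, e]
lemma D2 : D (e 2) = e 2 ⊗ₜ e 0 + e 0 ⊗ₜ e 2 := by simp [D_apply, e]
lemma D3 : D (e 3) = e 3 ⊗ₜ e 0 + e 0 ⊗ₜ e 3 := by simp [D_apply, e]
lemma D5 : D (e 5) = e 5 ⊗ₜ e 0 + e 0 ⊗ₜ e 5 + e 2 ⊗ₜ e 3 := by simp [D_apply, e]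

@[reducible] noncomputable def co : Coalgebra ℚ V where
  comul := D
  counit := E
  coassoc := by
    refine LinearMap.ext fun x => ?_
    simp only [LinearMap.comp_apply, LinearEquiv.coe_coe]
    rw [D_apply x]
    simp only [map_add, map_sub, map_smul, LinearMap.rTensor_tmul, LinearMap.lTensor_tmul, D0, D2,
      D3]
    rw [D_apply x]
    simp only [add_tmul, sub_tmul, tmul_add, tmul_sub, map_add, map_sub, ← smul_tmul',
      tmul_smul, map_smul, assoc_tmul]
    module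
  rTensor_counit_comp_comul := by
    refine LinearMap.ext fun x => ?_
    simp only [LinearMap.comp_apply]
    rw [D_apply x]
    simp only [map_add, map_sub, map_smul, LinearMap.rTensor_tmul, E_apply, mk_apply]
    have h : x 0 ⊗ₜ[ℚ] e 0 = x 0 • ((1 : ℚ) ⊗ₜ[ℚ] e 0) := by rw [smul_tmul', smul_eq_mul, mul_one]
    simp [e, h] at *
  lTensor_counit_comp_comul := by
    refine LinearMap.ext fun x => ?_
    simp only [LinearMap.comp_apply]
    rw [D_apply x]
    simp only [map_add, map_sub, map_smul, LinearMap.lTensor_tmul, E_apply, LinearMap.flip_apply,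
      mk_apply]
    have h : e 0 ⊗ₜ[ℚ] x 0 = x 0 • (e 0 ⊗ₜ[ℚ] (1 : ℚ)) := by rw [← tmul_smul, smul_eq_mul, mul_one]
    rw [h]
    simp [e]

def op : V →ₗ[ℚ] V →ₗ[ℚ] V :=
  LinearMap.mk₂ ℚ (fun x u => ![u 0 * x 0, u 0 * x 1, u 0 * x 2, u 0 * x 3 + x 3 * u 1 - x 1 * u 3,
      u 0 * x 4 + x 4 * u 2, u 0 * x 5 + x 5 * u 1])
    (fun x y u => by ext i; fin_cases i <;> simp <;> ring)
    (fun c x u => by ext i; fin_cases i <;> simp <;> ring)
    (fun x u v => by ext i; fin_cases i <;> simp <;> ring)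
    (fun c x u => by ext i; fin_cases i <;> simp <;> ring)

lemma op_apply (x u : V) : op x u = ![u 0 * x 0, u 0 * x 1, u 0 * x 2,
    u 0 * x 3 + x 3 * u 1 - x 1 * u 3, u 0 * x 4 + x 4 * u 2, u 0 * x 5 + x 5 * u 1] := rfl

lemma op_e0 (x : V) : op x (e 0) = x := by ext i; fin_cases i <;> simp [op_apply, e]
lemma e0_op (u : V) : op (e 0) u = u 0 • e 0 := by ext i; fin_cases i <;> simp [op_apply, e]
lemma e2_op (u : V) : op (e 2) u = u 0 • e 2 := by ext i; fin_cases i <;> simp [op_apply, e]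
lemma e3_op (u : V) : op (e 3) u = (u 0 + u 1) • e 3 := by
  ext i; fin_cases i <;> simp [op_apply, e]

lemma comul_op (x u : V) : D (op x u) = TensorProduct.map₂ op op (D x) (D u) := by
  have h0 : op x u 0 = u 0 * x 0 := rfl
  have h5 : op x u 5 = u 0 * x 5 + x 5 * u 1 := rfl
  have a1 : e 0 0 = 1 := by simp [e]
  have a2 : e 2 0 = 0 := by simp [e]
  have a3 : e 3 0 = 0 := by simp [e]
  have a4 : e 3 1 = 0 := by simp [e]
  have a5 : e 0 1 = 0 := by simp [e]
  rw [D_apply x, D_apply u, D_apply (op x u), h0, h5]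
  simp only [map_add, map_sub, map_smul, LinearMap.add_apply, LinearMap.sub_apply,
    LinearMap.smul_apply, map₂_apply_tmul, map_tmul, op_e0, e0_op, e2_op, e3_op, a1, a2, a3, a4,
    a5, ← smul_tmul', tmul_smul]
  module

lemma self_distrib (x y z : V) :
    op (op x y) z = TensorProduct.lift op (TensorProduct.map (op x) (op y) (D z)) := by
  rw [D_apply z]
  simp only [map_add, map_sub, map_smul, map_tmul, lift.tmul, op_e0]
  ext i
  fin_cases i <;> simp [op_apply, e] <;> ring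

theorem result : ∃ (C : Type) (_ : AddCommGroup C) (_ : Module ℚ C) (_ : Coalgebra ℚ C)
    (one : C) (op : C →ₗ[ℚ] C →ₗ[ℚ] C), IsRackBialgebra ℚ one op ∧
      ∀ (H : Type*) [Ring H] [Bialgebra ℚ H] (act : C →ₗ[ℚ] H →ₗ[ℚ] C) (q : C →ₗ[ℚ] H),
        ¬ IsYDRack ℚ one op act q := by
  refine ⟨V, inferInstance, inferInstance, co, e 0, op,
    @IsRackBialgebra.mk ℚ V _ _ _ co _ _ D0 (by show E (e 0) = 1; simp [E_apply, e]) comul_op
      (fun x y => by show op x y 0 = x 0 * y 0; rw [mul_comm]; rfl) self_distrib op_e0 e0_op, ?_⟩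
  intro H _ _ act q h
  obtain ⟨hone, -, -, -, hq, -, q1, hop, hyd⟩ := h
  have hq' : ∀ x, comul (R := ℚ) (q x) = TensorProduct.map q q (D x) := hq
  have c1 := hq' (e 1)
  have c2 := hq' (e 2)
  have c3 := hq' (e 3)
  have c5 := hq' (e 5)
  rw [D1] at c1; rw [D2] at c2; rw [D3] at c3; rw [D5] at c5
  simp only [map_add, map_tmul, q1] at c1 c2 c3 c5
  have o2 : op (e 1) (e 2) = 0 := by ext i; fin_cases i <;> simp [op_apply, e]
  have o3 : op (e 1) (e 3) = -e 3 := by ext i; fin_cases i <;> simp [op_apply, e]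
  have o5 : op (e 1) (e 5) = 0 := by ext i; fin_cases i <;> simp [op_apply, e]
  have o4 : op (e 4) (e 2) = e 4 := by ext i; fin_cases i <;> simp [op_apply, e]
  have y2 := hyd (e 1) (q (e 2))
  have y3 := hyd (e 1) (q (e 3))
  have y5 := hyd (e 1) (q (e 5))
  rw [c2] at y2; rw [c3] at y3; rw [c5] at y5
  simp only [map_add, map_tmul, LinearMap.mul'_apply, LinearMap.id_apply, LinearMap.comp_apply,
    hone, ← hop, o2, o3, o5, map_zero, map_neg, one_mul, add_zero, mul_neg] at y2 y3 y5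
  have key : q (e 3) ⊗ₜ[ℚ] q (e 2) = 0 := by
    have t := congrArg (comul (R := ℚ)) y5
    simp only [map_add, map_neg, Bialgebra.comul_mul, c1, c2, c3, c5, mul_add, add_mul,
      Algebra.TensorProduct.tmul_mul_tmul, one_mul, mul_one] at t
    rw [← y5, ← y3, ← y2] at t
    simp only [add_tmul, tmul_add, neg_tmul, tmul_neg] at t
    have t' := sub_eq_zero.2 t
    rw [← neg_eq_zero, ← t']
    abel
  have k2 := congrArg (TensorProduct.map (act (e 1)) (act (e 4))) key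
  rw [map_tmul, ← hop, ← hop, o3, o4, map_zero] at k2
  have k3 := congrArg (fun t => TensorProduct.lid ℚ ℚ (TensorProduct.map
    (LinearMap.proj 3 : V →ₗ[ℚ] ℚ) (LinearMap.proj 4 : V →ₗ[ℚ] ℚ) t)) k2
  simp [e] at k3

end Pool.Agent.Results.MP_abbe90_al.Example
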